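import Pool.Agent.N675.M.Stm7

/-!
# Averaged two point correlations: from completely multiplicative to multiplicative functions
-/

set_option autoImplicit false

namespace Pool.Agent.N424.M.Mul

open Finset Pool.Agent.N675 Pool.Agent.N781.A Pool.Agent.N781.FV Pool.Agent.N675.M

/-! ### arithmetic -/

lemma split_nat (m z V Q : ℕ) (hm : 0 < m) (h1 : ∀ p ≤ z, p.Prime → ¬ p ^ (V + 1) ∣ m)
    (h2 : ∀ p, z < p → p.Prime → ¬ p ^ 2 ∣ m)
    (hQ : Q = ∏ p ∈ (range (z + 1)).filter Nat.Prime, p ^ (V + 1)) :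
    ∃ t, m = Nat.gcd m Q * t ∧ Nat.Coprime (Nat.gcd m Q) t ∧ Squarefree t := by
  obtain ⟨t, ht⟩ := Nat.gcd_dvd_left m Q
  have hs0 : 0 < Nat.gcd m Q := Nat.gcd_pos_of_pos_left _ hm
  have htz : ∀ p, p.Prime → p ∣ t → z < p := by
    intro p hp hpt
    by_contra hle
    push Not at hle
    set v := m.factorization p with hv
    have hvV : v ≤ V := by
      by_contra hcon
      push Not at hcon
      exact h1 p hle hp ((pow_dvd_pow p hcon).trans (Nat.ordProj_dvd m p))
    have hpQ : p ^ (V + 1) ∣ Q := by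
      rw [hQ]
      exact Finset.dvd_prod_of_mem (fun p => p ^ (V + 1))
        (Finset.mem_filter.2 ⟨Finset.mem_range.2 (by omega), hp⟩)
    have hps : p ^ v ∣ Nat.gcd m Q := Nat.dvd_gcd (Nat.ordProj_dvd m p)
      ((pow_dvd_pow p (by omega)).trans hpQ)
    have h3 : p ^ (v + 1) ∣ m := by
      rw [ht, pow_succ]
      exact Nat.mul_dvd_mul hps hpt
    exact Nat.pow_succ_factorization_not_dvd hm.ne' hp h3
  refine ⟨t, ht, ?_, ?_⟩
  · refine Nat.coprime_of_dvd fun p hp hps hpt => ?_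
    have h3 := htz p hp hpt
    have h4 : p ∣ Q := hps.trans (Nat.gcd_dvd_right m Q)
    rw [hQ, hp.prime.dvd_finsetProd_iff] at h4
    obtain ⟨q, hq, hpq⟩ := h4
    rw [Finset.mem_filter, Finset.mem_range] at hq
    have h5 := (Nat.prime_dvd_prime_iff_eq hp hq.2).1 (hp.dvd_of_dvd_pow hpq)
    omega
  · rw [Nat.squarefree_iff_prime_squarefree]
    intro p hp hpp
    have h3 := htz p hp ((dvd_mul_right p p).trans hpp)
    refine h2 p h3 hp ?_
    rw [sq, ht]
    exact hpp.trans (dvd_mul_left _ _)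

lemma eq_on_squarefree (f' f : ℕ → ℂ) (h1 : f 1 = 1) (h1' : f' 1 = 1)
    (hf' : ∀ m n, 0 < m → 0 < n → f' (m * n) = f' m * f' n)
    (hf : ∀ m n, Nat.Coprime m n → f (m * n) = f m * f n)
    (hp : ∀ p : ℕ, p.Prime → f p = f' p) : ∀ t : ℕ, Squarefree t → f t = f' t := by
  intro t
  induction t using Nat.strong_induction_on with
  | _ t ih =>
    intro ht
    rcases Nat.lt_or_ge 1 t with h | h
    · obtain ⟨s, hs⟩ := Nat.minFac_dvd t
      have hpp : (Nat.minFac t).Prime := Nat.minFac_prime (by omega)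
      have hs0 : 0 < s := by
        rcases Nat.eq_zero_or_pos s with h0 | h0
        · rw [h0, mul_zero] at hs; omega
        · exact h0
      have hcop : Nat.Coprime (Nat.minFac t) s := by
        rw [Nat.Prime.coprime_iff_not_dvd hpp]
        intro hd
        obtain ⟨w, hw⟩ := hd
        have : Nat.minFac t * Nat.minFac t ∣ t := ⟨w, by rw [mul_assoc, ← hw]; exact hs⟩
        exact hpp.one_lt.ne' (Nat.isUnit_iff.1 (ht _ this))
      have hst : s < t := by
        rw [hs]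
        exact lt_mul_of_one_lt_left hs0 hpp.one_lt
      have hsq : Squarefree s := ht.squarefree_of_dvd ⟨Nat.minFac t, by rw [mul_comm]; exact hs⟩
      rw [hs, hf _ _ hcop, hf' _ _ hpp.pos hs0, hp _ hpp, ih s hst hsq]
    · interval_cases t
      · exact absurd ht not_squarefree_zero
      · rw [h1, h1']

/-! ### counting -/

lemma count_dvd (a m : ℤ) (ha : a ≠ 0) (D : ℕ) (hD : 0 < D) (x : ℕ) :
    ((Icc (1 : ℤ) x).filter (fun n => (D : ℤ) ∣ a * n + m)).card ≤ (a.natAbs * x) / D + 1 := by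
  classical
  set S := (Icc (1 : ℤ) x).filter (fun n => (D : ℤ) ∣ a * n + m) with hS
  rcases S.eq_empty_or_nonempty with h | h
  · rw [h]; simp
  · have hmem : ∀ n, n ∈ S → 1 ≤ n ∧ n ≤ x ∧ (D : ℤ) ∣ a * n + m := by
      intro n hn
      rw [hS, Finset.mem_filter, Finset.mem_Icc] at hn
      exact ⟨hn.1.1, hn.1.2, hn.2⟩
    set n0 := S.min' h with hn0
    have hn0S := hmem _ (S.min'_mem h)
    have hmin : ∀ n ∈ S, n0 ≤ n := fun n hn => S.min'_le n hn
    have hkey : ∀ n ∈ S, D * (a * (n - n0) / D).natAbs = a.natAbs * (n - n0).natAbs := by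
      intro n hn
      have h1 : (D : ℤ) ∣ a * (n - n0) := by
        have := dvd_sub (hmem n hn).2.2 hn0S.2.2
        have e : a * n + m - (a * n0 + m) = a * (n - n0) := by ring
        rwa [e] at this
      have h2 := Int.mul_ediv_cancel' h1
      have h3 := congrArg Int.natAbs h2
      rw [Int.natAbs_mul, Int.natAbs_mul, Int.natAbs_natCast] at h3
      exact h3
    have hcard : S.card ≤ (range (a.natAbs * x / D + 1)).card := by
      refine Finset.card_le_card_of_injOn (fun n => (a * (n - n0) / D).natAbs) ?_ ?_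
      · intro n hn
        have hn' : n ∈ S := hn
        have h1 := hkey n hn'
        have h2 := hmem n hn'
        have h3 := hmin n hn'
        simp only [Finset.coe_range, Set.mem_Iio]
        rw [Nat.lt_succ_iff, Nat.le_div_iff_mul_le hD, mul_comm, h1]
        refine Nat.mul_le_mul_left _ ?_
        have := hn0S.1
        omega
      · intro n hn n' hn' hnn
        have hn1 : n ∈ S := hn
        have hn2 : n' ∈ S := hn'
        have h1 := hkey n hn1
        have h2 := hkey n' hn2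
        simp only at hnn
        rw [hnn] at h1
        rw [h1] at h2
        have h3 : 0 < a.natAbs := Int.natAbs_pos.2 ha
        have h4 := Nat.eq_of_mul_eq_mul_left h3 h2
        have h5 := hmin n hn1
        have h6 := hmin n' hn2
        omega
    rwa [Finset.card_range] at hcard

lemma count_dvd' (a m : ℤ) (ha : a ≠ 0) (D : ℕ) (hD : 0 < D) (x : ℕ) :
    (((Icc (1 : ℤ) x).filter (fun n => (D : ℤ) ∣ a * n + m)).card : ℝ) ≤
      (a.natAbs : ℝ) * x * ((D : ℝ)⁻¹) + 1 := by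
  have h := count_dvd a m ha D hD x
  calc (((Icc (1 : ℤ) x).filter (fun n => (D : ℤ) ∣ a * n + m)).card : ℝ)
      ≤ (((a.natAbs * x) / D + 1 : ℕ) : ℝ) := by exact_mod_cast h
    _ = (((a.natAbs * x) / D : ℕ) : ℝ) + 1 := by push_cast; ring
    _ ≤ ((a.natAbs * x : ℕ) : ℝ) / D + 1 := by
        have := Nat.cast_div_le (α := ℝ) (m := a.natAbs * x) (n := D)
        linarith
    _ = (a.natAbs : ℝ) * x * ((D : ℝ)⁻¹) + 1 := by push_cast; ring

open Classical in
/-- the exceptional numbers -/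
noncomputable def Bad (a m : ℤ) (z V x : ℕ) : Finset ℤ :=
  (Icc (1 : ℤ) x).filter (fun n => a * n + m = 0 ∨
    (∃ p ≤ z, p.Prime ∧ ((p ^ (V + 1) : ℕ) : ℤ) ∣ a * n + m) ∨
    (a * n + m ≠ 0 ∧ ∃ p, z < p ∧ p.Prime ∧ ((p ^ 2 : ℕ) : ℤ) ∣ a * n + m))

lemma bad_card (a m : ℤ) (ha : a ≠ 0) (z V x B : ℕ) (hz : 1 ≤ z)
    (hB : ∀ n : ℤ, 1 ≤ n → n ≤ x → (a * n + m).natAbs ≤ B) :
    ((Bad a m z V x).card : ℝ) ≤ 1 + (z : ℝ) * ((a.natAbs : ℝ) * x * (1 / 2 : ℝ) ^ V + 1) +
      ((a.natAbs : ℝ) * x / z + Nat.sqrt B) := by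
  classical
  have hsub : Bad a m z V x ⊆ ((Icc (1 : ℤ) x).filter (fun n => a * n + m = 0)) ∪
      (((Icc 1 z).filter Nat.Prime).biUnion (fun p =>
        (Icc (1 : ℤ) x).filter (fun n => ((p ^ (V + 1) : ℕ) : ℤ) ∣ a * n + m))) ∪
      ((Ioc z (max z (Nat.sqrt B))).filter Nat.Prime).biUnion (fun p =>
        (Icc (1 : ℤ) x).filter (fun n => ((p ^ 2 : ℕ) : ℤ) ∣ a * n + m)) := by
    intro n hn
    unfold Bad at hn
    rw [Finset.mem_filter] at hn
    obtain ⟨hn1, hn2⟩ := hn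
    rw [Finset.mem_union, Finset.mem_union, Finset.mem_biUnion, Finset.mem_biUnion]
    rcases hn2 with h | ⟨p, hpz, hp, hd⟩ | ⟨h0, p, hpz, hp, hd⟩
    · left; left
      exact Finset.mem_filter.2 ⟨hn1, h⟩
    · left; right
      refine ⟨p, Finset.mem_filter.2 ⟨Finset.mem_Icc.2 ⟨hp.one_lt.le, hpz⟩, hp⟩, ?_⟩
      exact Finset.mem_filter.2 ⟨hn1, hd⟩
    · right
      refine ⟨p, Finset.mem_filter.2 ⟨Finset.mem_Ioc.2 ⟨hpz, ?_⟩, hp⟩, ?_⟩
      · refine le_trans ?_ (le_max_right _ _)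
        rw [Nat.le_sqrt, ← sq]
        rw [Finset.mem_Icc] at hn1
        refine le_trans ?_ (hB n hn1.1 hn1.2)
        have := Int.natAbs_dvd_natAbs.2 hd
        rw [Int.natAbs_natCast] at this
        exact Nat.le_of_dvd (Int.natAbs_pos.2 h0) this
      · exact Finset.mem_filter.2 ⟨hn1, hd⟩
  have hA1 : (((Icc (1 : ℤ) x).filter (fun n => a * n + m = 0)).card : ℝ) ≤ 1 := by
    have : ((Icc (1 : ℤ) x).filter (fun n => a * n + m = 0)).card ≤ 1 := by
      rw [Finset.card_le_one]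
      intro n hn n' hn'
      have h1 := (Finset.mem_filter.1 hn).2
      have h2 := (Finset.mem_filter.1 hn').2
      have h3 : a * n = a * n' := by linarith
      exact mul_left_cancel₀ ha h3
    exact_mod_cast this
  have hA2 : ((((Icc 1 z).filter Nat.Prime).biUnion (fun p =>
        (Icc (1 : ℤ) x).filter (fun n => ((p ^ (V + 1) : ℕ) : ℤ) ∣ a * n + m))).card : ℝ) ≤
        (z : ℝ) * ((a.natAbs : ℝ) * x * (1 / 2 : ℝ) ^ V + 1) := by
    have h1 : ((((Icc 1 z).filter Nat.Prime).biUnion (fun p =>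
        (Icc (1 : ℤ) x).filter (fun n => ((p ^ (V + 1) : ℕ) : ℤ) ∣ a * n + m))).card : ℝ) ≤
        ∑ p ∈ (Icc 1 z).filter Nat.Prime, (((Icc (1 : ℤ) x).filter
          (fun n => ((p ^ (V + 1) : ℕ) : ℤ) ∣ a * n + m)).card : ℝ) := by
      exact_mod_cast Finset.card_biUnion_le
    refine h1.trans ?_
    have h2 : ∀ p ∈ (Icc 1 z).filter Nat.Prime, (((Icc (1 : ℤ) x).filter
          (fun n => ((p ^ (V + 1) : ℕ) : ℤ) ∣ a * n + m)).card : ℝ) ≤
          (a.natAbs : ℝ) * x * (1 / 2 : ℝ) ^ V + 1 := by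
      intro p hp
      have hpp := (Finset.mem_filter.1 hp).2
      have h3 := count_dvd' a m ha (p ^ (V + 1)) (pow_pos hpp.pos _) x
      refine h3.trans ?_
      have h4 : (((p ^ (V + 1) : ℕ) : ℝ))⁻¹ ≤ (1 / 2 : ℝ) ^ V := by
        rw [one_div, inv_pow]
        apply inv_anti₀ (by positivity)
        push_cast
        calc (2 : ℝ) ^ V ≤ (p : ℝ) ^ V := pow_le_pow_left₀ (by norm_num)
              (by exact_mod_cast hpp.two_le) V
          _ ≤ (p : ℝ) ^ (V + 1) := pow_le_pow_right₀ (by exact_mod_cast hpp.one_lt.le) (by omega)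
      have h5 : (a.natAbs : ℝ) * x * (((p ^ (V + 1) : ℕ) : ℝ))⁻¹ ≤
          (a.natAbs : ℝ) * x * (1 / 2 : ℝ) ^ V := mul_le_mul_of_nonneg_left h4 (by positivity)
      linarith
    refine (Finset.sum_le_card_nsmul _ _ _ h2).trans ?_
    rw [nsmul_eq_mul]
    refine mul_le_mul_of_nonneg_right ?_ (by positivity)
    have : ((Icc 1 z).filter Nat.Prime).card ≤ z := by
      refine (Finset.card_filter_le _ _).trans ?_
      rw [Nat.card_Icc]; omega
    exact_mod_cast this
  have hA3 : ((((Ioc z (max z (Nat.sqrt B))).filter Nat.Prime).biUnion (fun p =>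
        (Icc (1 : ℤ) x).filter (fun n => ((p ^ 2 : ℕ) : ℤ) ∣ a * n + m))).card : ℝ) ≤
        (a.natAbs : ℝ) * x / z + Nat.sqrt B := by
    have h1 : ((((Ioc z (max z (Nat.sqrt B))).filter Nat.Prime).biUnion (fun p =>
        (Icc (1 : ℤ) x).filter (fun n => ((p ^ 2 : ℕ) : ℤ) ∣ a * n + m))).card : ℝ) ≤
        ∑ p ∈ (Ioc z (max z (Nat.sqrt B))).filter Nat.Prime, (((Icc (1 : ℤ) x).filter
          (fun n => ((p ^ 2 : ℕ) : ℤ) ∣ a * n + m)).card : ℝ) := by
      exact_mod_cast Finset.card_biUnion_le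
    refine h1.trans ?_
    have h2 : ∑ p ∈ (Ioc z (max z (Nat.sqrt B))).filter Nat.Prime, (((Icc (1 : ℤ) x).filter
          (fun n => ((p ^ 2 : ℕ) : ℤ) ∣ a * n + m)).card : ℝ) ≤
        ∑ p ∈ Ioc z (max z (Nat.sqrt B)), ((a.natAbs : ℝ) * x * (((p : ℝ) ^ 2)⁻¹) + 1) := by
      calc _ ≤ ∑ p ∈ (Ioc z (max z (Nat.sqrt B))).filter Nat.Prime,
            ((a.natAbs : ℝ) * x * (((p : ℝ) ^ 2)⁻¹) + 1) := by
            refine Finset.sum_le_sum fun p hp => ?_
            have hpp := (Finset.mem_filter.1 hp).2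
            have h3 := count_dvd' a m ha (p ^ 2) (pow_pos hpp.pos _) x
            push_cast at h3
            exact_mod_cast h3
        _ ≤ _ := Finset.sum_le_sum_of_subset_of_nonneg (Finset.filter_subset _ _)
            fun p _ _ => by positivity
    refine h2.trans ?_
    rw [Finset.sum_add_distrib, ← Finset.mul_sum, Finset.sum_const, nsmul_eq_mul, mul_one,
      Nat.card_Ioc]
    have h3 := sum_Ioc_inv_sq_le_sub (α := ℝ) (k := z) (n := max z (Nat.sqrt B)) (by omega)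
      (le_max_left _ _)
    have h4 : ∑ i ∈ Ioc z (max z (Nat.sqrt B)), ((i : ℝ) ^ 2)⁻¹ ≤ (z : ℝ)⁻¹ := by
      refine h3.trans ?_
      have : (0 : ℝ) ≤ ((max z (Nat.sqrt B) : ℕ) : ℝ)⁻¹ := by positivity
      linarith
    have h5 : (a.natAbs : ℝ) * x * ∑ i ∈ Ioc z (max z (Nat.sqrt B)), ((i : ℝ) ^ 2)⁻¹ ≤
        (a.natAbs : ℝ) * x / z := by
      rw [div_eq_mul_inv]
      exact mul_le_mul_of_nonneg_left h4 (by positivity)
    have h6 : ((max z (Nat.sqrt B) - z : ℕ) : ℝ) ≤ (Nat.sqrt B : ℝ) := by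
      have : max z (Nat.sqrt B) - z ≤ Nat.sqrt B := by omega
      exact_mod_cast this
    linarith
  have hB1 := Finset.card_le_card hsub
  have hB2 := Finset.card_union_le (((Icc (1 : ℤ) x).filter (fun n => a * n + m = 0)) ∪
      (((Icc 1 z).filter Nat.Prime).biUnion (fun p =>
        (Icc (1 : ℤ) x).filter (fun n => ((p ^ (V + 1) : ℕ) : ℤ) ∣ a * n + m))))
      (((Ioc z (max z (Nat.sqrt B))).filter Nat.Prime).biUnion (fun p =>
        (Icc (1 : ℤ) x).filter (fun n => ((p ^ 2 : ℕ) : ℤ) ∣ a * n + m)))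
  have hB3 := Finset.card_union_le ((Icc (1 : ℤ) x).filter (fun n => a * n + m = 0))
      (((Icc 1 z).filter Nat.Prime).biUnion (fun p =>
        (Icc (1 : ℤ) x).filter (fun n => ((p ^ (V + 1) : ℕ) : ℤ) ∣ a * n + m)))
  have hB4 := hB1.trans (hB2.trans (Nat.add_le_add_right hB3 _))
  have hB5 : ((Bad a m z V x).card : ℝ) ≤ _ := Nat.cast_le.2 hB4
  rw [Nat.cast_add, Nat.cast_add] at hB5
  linarith

/-! ### the periodic factor -/

/-- the periodic factor -/
noncomputable def P0 (f' f : ℕ → ℂ) (s : ℕ) : ℂ := f s * (starRingEnd ℂ) (f' s)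

/-- the periodic factor on residue classes -/
noncomputable def Ph (f' f : ℕ → ℂ) (Q : ℕ) (r : ZMod Q) : ℂ := P0 f' f (Nat.gcd r.val Q)

lemma Ph_apply (f' f : ℕ → ℂ) (Q : ℕ) [NeZero Q] (l : ℤ) :
    Ph f' f Q (l : ZMod Q) = P0 f' f (Nat.gcd l.natAbs Q) := by
  unfold Ph
  congr 1
  have h1 : (((l : ZMod Q).val : ℕ) : ℤ) = l % Q := ZMod.val_intCast l
  have h2 : Int.gcd ((((l : ZMod Q).val : ℕ) : ℤ)) (Q : ℤ) = Int.gcd l Q := by
    rw [h1]
    exact Int.gcd_emod _ _
  have h3 : Int.gcd ((((l : ZMod Q).val : ℕ) : ℤ)) (Q : ℤ) = Nat.gcd (l : ZMod Q).val Q :=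
    Int.gcd_natCast_natCast _ _
  have h4 : Int.gcd l (Q : ℤ) = Nat.gcd l.natAbs Q := by
    simp [Int.gcd]
  rw [← h3, h2, h4]

lemma fourier (Q : ℕ) [NeZero Q] (Φ : ZMod Q → ℂ) (hΦ : ∀ r, ‖Φ r‖ ≤ 1) :
    ∃ c : ZMod Q → ℂ, (∀ k, ‖c k‖ ≤ 1) ∧
      ∀ r, Φ r = ∑ k, c k * (ZMod.stdAddChar (k * r) : ℂ) := by
  refine ⟨fun k => (Q : ℂ)⁻¹ * ZMod.dft Φ k, fun k => ?_, fun r => ?_⟩
  · rw [norm_mul, norm_inv, Complex.norm_natCast, ZMod.dft_apply]
    have h1 : ‖∑ j : ZMod Q, ZMod.stdAddChar (-(j * k)) • Φ j‖ ≤ Q := by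
      refine (norm_sum_le _ _).trans ?_
      calc ∑ j : ZMod Q, ‖ZMod.stdAddChar (-(j * k)) • Φ j‖ ≤ ∑ _j : ZMod Q, (1 : ℝ) := by
            refine Finset.sum_le_sum fun j _ => ?_
            rw [norm_smul, AddChar.norm_apply, one_mul]
            exact hΦ j
        _ = Q := by simp [ZMod.card]
    have hQ : (0 : ℝ) < Q := by exact_mod_cast Nat.pos_of_ne_zero (NeZero.ne Q)
    rw [inv_mul_le_iff₀ hQ, mul_one]
    exact h1
  · have h1 := congrFun (LinearEquiv.symm_apply_apply (ZMod.dft (N := Q) (E := ℂ)) Φ) r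
    rw [ZMod.invDFT_apply] at h1
    rw [← h1, smul_eq_mul, Finset.mul_sum]
    refine Finset.sum_congr rfl fun k _ => ?_
    rw [smul_eq_mul]
    ring

lemma P0_mul (f' f : ℕ → ℂ) (hf'1 : ∀ n, 0 < n → ‖f' n‖ = 1)
    (hf'm : ∀ m n, 0 < m → 0 < n → f' (m * n) = f' m * f' n)
    (hfm : ∀ m n, Nat.Coprime m n → f (m * n) = f m * f n)
    (hp : ∀ p : ℕ, p.Prime → f p = f' p) (m z V Q : ℕ) (hm : 0 < m)
    (h1 : ∀ p ≤ z, p.Prime → ¬ p ^ (V + 1) ∣ m) (h2 : ∀ p, z < p → p.Prime → ¬ p ^ 2 ∣ m)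
    (hQ : Q = ∏ p ∈ (range (z + 1)).filter Nat.Prime, p ^ (V + 1)) :
    f m = P0 f' f (Nat.gcd m Q) * f' m := by
  have e1 : f 1 = 1 := by
    have h3 := hfm 1 2 (by norm_num)
    rw [one_mul, hp 2 Nat.prime_two] at h3
    have h4 : f' 2 ≠ 0 := by
      intro h
      have := hf'1 2 (by norm_num)
      rw [h, norm_zero] at this
      norm_num at this
    exact mul_right_cancel₀ h4 (by rw [one_mul]; exact h3.symm)
  have e1' : f' 1 = 1 := by
    have h3 := hf'm 1 1 (by norm_num) (by norm_num)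
    have h4 : f' 1 ≠ 0 := by
      intro h
      have := hf'1 1 (by norm_num)
      rw [h, norm_zero] at this
      norm_num at this
    rw [one_mul] at h3
    exact mul_right_cancel₀ h4 (by rw [one_mul]; exact h3.symm)
  obtain ⟨t, h3, h4, h5⟩ := split_nat m z V Q hm h1 h2 hQ
  have hs0 : 0 < Nat.gcd m Q := Nat.gcd_pos_of_pos_left _ hm
  have ht0 : 0 < t := by
    rcases Nat.eq_zero_or_pos t with h | h
    · rw [h, mul_zero] at h3; omega
    · exact h
  have h6 := eq_on_squarefree f' f e1 e1' hf'm hfm hp t h5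
  have h7 : (starRingEnd ℂ) (f' (Nat.gcd m Q)) * f' (Nat.gcd m Q) = 1 := by
    rw [mul_comm, Complex.mul_conj, Complex.normSq_eq_norm_sq, hf'1 _ hs0]
    norm_num
  have h8 : f m = f (Nat.gcd m Q) * f t := by
    conv_lhs => rw [h3]
    exact hfm _ _ h4
  have h9 : f' m = f' (Nat.gcd m Q) * f' t := by
    conv_lhs => rw [h3]
    exact hf'm _ _ hs0 ht0
  rw [h8, h9, P0, h6]
  linear_combination (-(f (Nat.gcd m Q)) * f' t) * h7

lemma av_sum {κ : Type} (s : Finset κ) (N : ℕ) (F : κ → ℤ → ℂ) :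
    av N (fun n => ∑ k ∈ s, F k n) = ∑ k ∈ s, av N (F k) := by
  unfold av
  rw [Finset.sum_comm, Finset.sum_div]

lemma av_const_mul (N : ℕ) (c : ℂ) (F : ℤ → ℂ) : av N (fun n => c * F n) = c * av N F := by
  unfold av
  rw [← Finset.mul_sum, mul_div_assoc]

lemma avr_sum {κ : Type} (s : Finset κ) (N : ℕ) (F : κ → ℤ → ℝ) :
    avr N (fun n => ∑ k ∈ s, F k n) = ∑ k ∈ s, avr N (F k) := by
  unfold avr
  rw [Finset.sum_comm, Finset.sum_div]

lemma avr_add_const (N : ℕ) (hN : 0 < N) (c : ℝ) (F : ℤ → ℝ) :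
    avr N (fun n => F n + c) = avr N F + c := by
  unfold avr
  have h : (N : ℝ) ≠ 0 := by exact_mod_cast hN.ne'
  rw [Finset.sum_add_distrib, Finset.sum_const, Int.card_Icc, nsmul_eq_mul]
  have : ((N : ℤ) + 1 - 1).toNat = N := by omega
  rw [this]
  field_simp

lemma avr_mono (N : ℕ) (F G : ℤ → ℝ) (h : ∀ n : ℤ, 1 ≤ n → n ≤ N → F n ≤ G n) : avr N F ≤ avr N G := by
  unfold avr
  refine div_le_div_of_nonneg_right (Finset.sum_le_sum fun n hn => ?_) (Nat.cast_nonneg _)
  rw [Finset.mem_Icc] at hn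
  exact h n hn.1 hn.2

end Pool.Agent.N424.M.Mul

open Finset Pool.Agent.N675 Pool.Agent.N781.A Pool.Agent.N781.FV Pool.Agent.N675.M
  Pool.Agent.N424.M.Mul in
theorem Pool.Agent.N424.M.mul : S_MUL := by
  classical
  intro f' f hf'1 hf'm hf1 hfm hp hM a b ha hb R C ε hε
  set M0 : ℝ := ‖f' 0‖ with hM0
  have hM00 : 0 ≤ M0 := norm_nonneg _
  set ε1 : ℝ := ε / (2 * (2 + M0)) with hε1
  have hε10 : 0 < ε1 := by positivity
  obtain ⟨z0, hz0⟩ := exists_nat_ge ((a.natAbs : ℝ) * 4 / ε1)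
  set z : ℕ := z0 + 1 with hz
  have hz1 : 1 ≤ z := by omega
  have hza : (a.natAbs : ℝ) / z ≤ ε1 / 4 := by
    have h1 : (0 : ℝ) < z := by positivity
    rw [div_le_iff₀ h1]
    rw [div_le_iff₀ hε10] at hz0
    have h2 : (z : ℝ) = z0 + 1 := by rw [hz]; push_cast; ring
    rw [h2]
    nlinarith
  obtain ⟨V, hV⟩ := exists_pow_lt_of_lt_one (show (0 : ℝ) < ε1 / 4 / (z * a.natAbs + 1) by positivity)
    (show (1 / 2 : ℝ) < 1 by norm_num)
  have hVz : (z : ℝ) * (a.natAbs : ℝ) * (1 / 2 : ℝ) ^ V ≤ ε1 / 4 := by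
    rw [lt_div_iff₀ (by positivity)] at hV
    have : (0 : ℝ) ≤ (1 / 2 : ℝ) ^ V := by positivity
    nlinarith
  set Q : ℕ := ∏ p ∈ (range (z + 1)).filter Nat.Prime, p ^ (V + 1) with hQ
  have hQ0 : 0 < Q := Finset.prod_pos fun p hp' => pow_pos (Finset.mem_filter.1 hp').2.pos _
  have : NeZero Q := ⟨hQ0.ne'⟩
  have hQR : (0 : ℝ) < Q := by exact_mod_cast hQ0
  obtain ⟨K1, hK1⟩ := hM a b ha hb R C (ε / (2 * Q)) (by positivity)
  set C' : ℕ := a.natAbs + b.natAbs * R + C with hC'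
  obtain ⟨K2, hK2⟩ := exists_nat_ge (4 * (1 + (z : ℝ)) / ε1)
  obtain ⟨K3, hK3⟩ := exists_nat_ge (16 * (C' : ℝ) / ε1 ^ 2)
  refine ⟨max (max K1 1) (max K2 K3), fun U x hU hx hUx c hc θ hθ => ?_⟩
  have hU1 : 0 < U := lt_of_lt_of_le (by norm_num) ((le_max_right K1 1).trans ((le_max_left _ _).trans hU))
  have hx1 : 0 < x := lt_of_lt_of_le (by norm_num) ((le_max_right K1 1).trans ((le_max_left _ _).trans hx))
  have hUK : K1 ≤ U := (le_max_left K1 1).trans ((le_max_left _ _).trans hU)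
  have hxK : K1 ≤ x := (le_max_left K1 1).trans ((le_max_left _ _).trans hx)
  have hxR : (0 : ℝ) < x := by exact_mod_cast hx1
  have hx2 : 1 + (z : ℝ) ≤ ε1 / 4 * x := by
    have h1 : (K2 : ℝ) ≤ x := by
      exact_mod_cast (le_max_left K2 K3).trans ((le_max_right _ _).trans hx)
    have h2 := hK2.trans h1
    rw [div_le_iff₀ hε10] at h2
    linarith
  have hx3 : (Nat.sqrt (C' * x) : ℝ) ≤ ε1 / 4 * x := by
    have h1 : (K3 : ℝ) ≤ x := by
      exact_mod_cast (le_max_right K2 K3).trans ((le_max_right _ _).trans hx)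
    have h2 := hK3.trans h1
    rw [div_le_iff₀ (by positivity)] at h2
    refine Real.nat_sqrt_le_real_sqrt.trans ?_
    rw [Real.sqrt_le_left (by positivity)]
    push_cast
    nlinarith
  -- the bound for one `u`
  have hone : ∀ u : ℤ, 1 ≤ u → u ≤ U →
      ‖av x fun n => θ n * f (a * n + b * u + c).natAbs‖ ≤
      (∑ k : ZMod Q, ‖av x fun n => (θ n * (ZMod.stdAddChar (k * ((a * n : ℤ) : ZMod Q)) : ℂ)) *
        f' (a * n + b * u + c).natAbs‖) + ε / 2 := by
    intro u hu1 hu2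
    set m : ℤ := b * u + c with hm
    have hl : ∀ n : ℤ, a * n + b * u + c = a * n + m := fun n => by rw [hm, add_assoc]
    have hB : ∀ n : ℤ, 1 ≤ n → n ≤ x → (a * n + m).natAbs ≤ C' * x := by
      intro n hn1 hn2
      have h1 : |a * n + m| ≤ C' * x := by
        have h3 : |a * n| ≤ |a| * x := by
          rw [abs_mul]
          refine mul_le_mul_of_nonneg_left ?_ (abs_nonneg _)
          rw [abs_of_nonneg (by omega)]
          exact hn2
        have h4 : |b * u| ≤ |b| * (R * x) := by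
          rw [abs_mul]
          refine mul_le_mul_of_nonneg_left ?_ (abs_nonneg _)
          rw [abs_of_nonneg (by omega)]
          have : (U : ℤ) ≤ R * x := by exact_mod_cast hUx
          linarith
        have h5 : |a * n + m| ≤ |a * n| + (|b * u| + |c|) := by
          rw [hm]
          exact (abs_add_le _ _).trans (by linarith [abs_add_le (b * u) c])
        have h6 : (C' : ℤ) * x = |a| * x + |b| * (R * x) + C * x := by
          rw [hC']
          push_cast
          ring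
        rw [h6]
        linarith
      zify
      exact h1
    have hbad := bad_card a m ha z V x (C' * x) hz1 hB
    have hbad2 : ((Bad a m z V x).card : ℝ) ≤ ε1 * x := by
      have h1 : (z : ℝ) * ((a.natAbs : ℝ) * x * (1 / 2 : ℝ) ^ V + 1) =
          ((z : ℝ) * (a.natAbs : ℝ) * (1 / 2 : ℝ) ^ V) * x + z := by ring
      have h2 : ((z : ℝ) * (a.natAbs : ℝ) * (1 / 2 : ℝ) ^ V) * x ≤ ε1 / 4 * x :=
        mul_le_mul_of_nonneg_right hVz hxR.le
      have h3 : (a.natAbs : ℝ) * x / z = (a.natAbs : ℝ) / z * x := by ring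
      have h4 : (a.natAbs : ℝ) / z * x ≤ ε1 / 4 * x := mul_le_mul_of_nonneg_right hza hxR.le
      rw [h1, h3] at hbad
      linarith
    set G : ℤ → ℂ := fun n => θ n * (P0 f' f (Nat.gcd (a * n + m).natAbs Q) *
      f' (a * n + m).natAbs) with hG
    have hP0 : ∀ l : ℤ, ‖P0 f' f (Nat.gcd l.natAbs Q)‖ ≤ 1 := by
      intro l
      unfold P0
      rw [norm_mul, RCLike.norm_conj, hf'1 _ (Nat.gcd_pos_of_pos_right _ hQ0), mul_one]
      exact hf1 _
    have hf'b : ∀ n : ℕ, ‖f' n‖ ≤ 1 + M0 := by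
      intro n
      rcases Nat.eq_zero_or_pos n with h | h
      · rw [h]; linarith
      · rw [hf'1 n h]; linarith
    have hFG : ∀ n ∈ Icc (1 : ℤ) x, ‖θ n * f (a * n + m).natAbs - G n‖ ≤
        if n ∈ Bad a m z V x then 2 + M0 else 0 := by
      intro n hn
      split_ifs with hnB
      · refine (norm_sub_le _ _).trans ?_
        have h1 : ‖θ n * f (a * n + m).natAbs‖ ≤ 1 := by
          rw [norm_mul]
          exact mul_le_one₀ (hθ n) (norm_nonneg _) (hf1 _)
        have h2 : ‖G n‖ ≤ 1 + M0 := by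
          simp only [hG]
          rw [norm_mul, norm_mul]
          calc ‖θ n‖ * (‖P0 f' f (Nat.gcd (a * n + m).natAbs Q)‖ * ‖f' (a * n + m).natAbs‖)
              ≤ 1 * (1 * (1 + M0)) := by
                refine mul_le_mul (hθ n) ?_ (by positivity) (by norm_num)
                exact mul_le_mul (hP0 _) (hf'b _) (norm_nonneg _) (by norm_num)
            _ = 1 + M0 := by ring
        linarith
      · have h0 : θ n * f (a * n + m).natAbs - G n = 0 := by
          unfold Bad at hnB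
          rw [Finset.mem_filter, not_and] at hnB
          have h1 := hnB hn
          push Not at h1
          obtain ⟨h2, h3, h4⟩ := h1
          have h5 := h4 h2
          have h6 := P0_mul f' f hf'1 hf'm hfm hp (a * n + m).natAbs z V Q
            (Int.natAbs_pos.2 h2)
            (fun p hpz hpp hd => h3 p hpz hpp (Int.natCast_dvd.2 hd))
            (fun p hpz hpp hd => h5 p hpz hpp (Int.natCast_dvd.2 hd)) hQ
          simp only [hG]
          rw [h6]
          ring
        rw [h0, norm_zero]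
    have hdiff : ‖av x (fun n => θ n * f (a * n + m).natAbs) - av x G‖ ≤ ε / 2 := by
      unfold av
      rw [← sub_div, ← Finset.sum_sub_distrib, norm_div, Complex.norm_natCast,
        div_le_iff₀ hxR]
      refine (norm_sum_le _ _).trans ((Finset.sum_le_sum hFG).trans ?_)
      rw [← Finset.sum_filter, Finset.sum_const, nsmul_eq_mul]
      have h1 : ((Icc (1 : ℤ) x).filter (fun n => n ∈ Bad a m z V x)).card ≤
          (Bad a m z V x).card := by
        refine Finset.card_le_card fun n hn => (Finset.mem_filter.1 hn).2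
      have h2 : (((Icc (1 : ℤ) x).filter (fun n => n ∈ Bad a m z V x)).card : ℝ) ≤ ε1 * x :=
        (by exact_mod_cast h1 : (((Icc (1 : ℤ) x).filter (fun n => n ∈ Bad a m z V x)).card : ℝ) ≤
          (Bad a m z V x).card).trans hbad2
      calc (((Icc (1 : ℤ) x).filter (fun n => n ∈ Bad a m z V x)).card : ℝ) * (2 + M0)
          ≤ (ε1 * x) * (2 + M0) := mul_le_mul_of_nonneg_right h2 (by positivity)
        _ = ε / 2 * x := by rw [hε1]; field_simp
    obtain ⟨cf, hcf1, hcf2⟩ := fourier Q (Ph f' f Q) (fun r => by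
      unfold Ph P0
      rw [norm_mul, RCLike.norm_conj, hf'1 _ (Nat.gcd_pos_of_pos_right _ hQ0), mul_one]
      exact hf1 _)
    have hGk : ∀ n, G n = ∑ k : ZMod Q, (cf k * (ZMod.stdAddChar (k * ((m : ℤ) : ZMod Q)) : ℂ)) *
        ((θ n * (ZMod.stdAddChar (k * ((a * n : ℤ) : ZMod Q)) : ℂ)) * f' (a * n + m).natAbs) := by
      intro n
      simp only [hG]
      rw [← Ph_apply, hcf2, Finset.sum_mul, Finset.mul_sum]
      refine Finset.sum_congr rfl fun k _ => ?_
      have h1 : (ZMod.stdAddChar (k * ((a * n + m : ℤ) : ZMod Q)) : ℂ) =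
          ZMod.stdAddChar (k * ((a * n : ℤ) : ZMod Q)) * ZMod.stdAddChar (k * ((m : ℤ) : ZMod Q)) := by
        rw [← AddChar.map_add_eq_mul]
        congr 1
        push_cast
        ring
      rw [h1]
      ring
    have hGav : ‖av x G‖ ≤ ∑ k : ZMod Q, ‖av x fun n =>
        (θ n * (ZMod.stdAddChar (k * ((a * n : ℤ) : ZMod Q)) : ℂ)) * f' (a * n + m).natAbs‖ := by
      have h1 : av x G = ∑ k : ZMod Q, (cf k * (ZMod.stdAddChar (k * ((m : ℤ) : ZMod Q)) : ℂ)) *
          av x (fun n => (θ n * (ZMod.stdAddChar (k * ((a * n : ℤ) : ZMod Q)) : ℂ)) *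
            f' (a * n + m).natAbs) := by
        rw [show G = fun n => ∑ k : ZMod Q, (cf k * (ZMod.stdAddChar (k * ((m : ℤ) : ZMod Q)) : ℂ)) *
          ((θ n * (ZMod.stdAddChar (k * ((a * n : ℤ) : ZMod Q)) : ℂ)) * f' (a * n + m).natAbs)
          from funext hGk, av_sum]
        refine Finset.sum_congr rfl fun k _ => ?_
        rw [av_const_mul]
      rw [h1]
      refine (norm_sum_le _ _).trans (Finset.sum_le_sum fun k _ => ?_)
      rw [norm_mul, norm_mul, AddChar.norm_apply, mul_one]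
      exact mul_le_of_le_one_left (norm_nonneg _) (hcf1 k)
    simp only [hl]
    have h9 := norm_le_norm_add_norm_sub' (av x (fun n => θ n * f (a * n + m).natAbs)) (av x G)
    linarith
  calc avr U (fun u => ‖av x fun n => θ n * f (a * n + b * u + c).natAbs‖)
      ≤ avr U (fun u => (∑ k : ZMod Q, ‖av x fun n =>
        (θ n * (ZMod.stdAddChar (k * ((a * n : ℤ) : ZMod Q)) : ℂ)) *
        f' (a * n + b * u + c).natAbs‖) + ε / 2) := avr_mono U _ _ hone
    _ = (∑ k : ZMod Q, avr U (fun u => ‖av x fun n =>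
        (θ n * (ZMod.stdAddChar (k * ((a * n : ℤ) : ZMod Q)) : ℂ)) *
        f' (a * n + b * u + c).natAbs‖)) + ε / 2 := by
        rw [avr_add_const U hU1, avr_sum]
    _ ≤ (∑ _k : ZMod Q, ε / (2 * Q)) + ε / 2 := by
        have h1 : ∀ k : ZMod Q, avr U (fun u => ‖av x fun n =>
          (θ n * (ZMod.stdAddChar (k * ((a * n : ℤ) : ZMod Q)) : ℂ)) *
          f' (a * n + b * u + c).natAbs‖) ≤ ε / (2 * Q) := by
          intro k
          refine hK1 U x hUK hxK hUx c hc
            (fun n => θ n * (ZMod.stdAddChar (k * ((a * n : ℤ) : ZMod Q)) : ℂ)) fun n => ?_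
          rw [norm_mul, AddChar.norm_apply, mul_one]
          exact hθ n
        have h2 := Finset.sum_le_sum (s := (Finset.univ : Finset (ZMod Q))) fun k _ => h1 k
        linarith
    _ = ε := by
        rw [Finset.sum_const, Finset.card_univ, ZMod.card, nsmul_eq_mul]
        field_simp
        ring
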